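import Pool.Agent.Lib.MP_cae7fa_lc.Negative

/-!
# Borel completeness can be lost by naming a constant

There are a complete theory `T` in a countable language and an element `c` of a model of `T` such
that `T` is Borel complete and `T(c)` is not Borel complete.

The definitions (infinitary sentences, the formula topology, Borel reducibility, Borel
completeness, naming a constant) are in `Pool/Agent/Lib/MP_cae7fa_lc/Defs.lean`.

Idea. Let `F n` be the finite set of pairs (label at most `n`, partial sequence of points at most
`n`), on which the permutations of the points of level `n` act. A structure is a countable set of
elements, each labelled by a point of the product of the `F n`; the binary relations of level `n`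
tell the orbit of the pair of letters of two elements. All structures whose elements are dense in
the product have the same theory `T`. Structures all of whose elements are germs at infinity
(eventually constant in the obvious sense) of finite tuples of natural numbers code arbitrary
countable structures, because every permutation of the natural numbers is a limit at infinity of
permutations of the levels. On the other hand, an element `c` whose letter has trivial stabiliser
at every level names all points of all levels, and then a model is determined by the
multiplicities of the elements of a countable set of reals.
-/

namespace Pool.Agent.Results.MP_cae7fa_lc.LostByNaming

open FirstOrder FirstOrder.Language Pool.MPcae7fa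

/-- Borel completeness can be lost by naming a constant: there are a complete theory `T` with
infinite models in a countable language, a model `M` of `T` and an element `c` of `M` such that
`T` is Borel complete and the theory `T(c)` of `(M, c)` is not. -/
theorem result :
    ∃ (L : FirstOrder.Language.{0, 0}) (T : L.Theory) (M : Type) (_ : L.Structure M) (c : M),
      IsCountable L ∧ T.IsComplete ∧ Infinite M ∧ M ⊨ T ∧
      BorelComplete (ModTh T) ∧ ¬ BorelComplete (ModTh (namingConstant L M c)) := by
  refine ⟨Lprof, Tprof, Option Car, str labN, none, isCountable_Lprof, ?_, inferInstance, ?_,
    borelComplete_Tprof, not_borelComplete_Tc⟩
  · let := str labN
    exact completeTheory.isComplete Lprof (Option Car)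
  · let := str labN
    exact model_completeTheory

end Pool.Agent.Results.MP_cae7fa_lc.LostByNaming
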